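import Mathlib
import Pool.Agent.Y785.AO.Col

set_option autoImplicit false

namespace Pool.Agent.Results.MP_7a24ab_lc.HighlyTransitiveAleph1

open Ordinal Cardinal Set Filter
open Pool.Agent.Y785.AO

/-- orbits on the power set are orbits on colourings by the two truth values -/
lemma mk_orbit_eq {Ω : Type} (K : Subgroup (Equiv.Perm Ω)) :
    Cardinal.mk (Quotient (setSetoid K)) = Cardinal.mk (Quotient (colSetoid (κ := Prop) K)) := by
  refine Cardinal.mk_congr (Quotient.congr (Equiv.refl _) ?_)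
  intro A B
  constructor
  · rintro ⟨g, hg, rfl⟩
    refine ⟨g, hg, fun x => propext ?_⟩
    exact g.injective.mem_set_image
  · rintro ⟨g, hg, h⟩
    refine ⟨g, hg, ?_⟩
    ext y
    constructor
    · rintro ⟨x, hx, rfl⟩
      exact (Eq.to_iff (h x)).mpr hx
    · intro hy
      refine ⟨g⁻¹ y, ?_, ais g y⟩
      have h1 := h (g⁻¹ y)
      rw [ais] at h1
      exact (Eq.to_iff h1).mp hy

/-- There is a highly transitive group `H` of permutations of a countably infinite set `Ω` such that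
`H`, and every subgroup `K` of `H` whose index in `H` is at most `ℵ₁`, has exactly `ℵ₁` orbits on the
power set of `Ω` and exactly `ℵ₁` orbits on the colourings of `Ω` by any finite set of at least two
colours. If the continuum hypothesis fails, all these numbers lie strictly between `ℵ₀` and the
continuum. -/
theorem result : ∃ (Ω : Type) (_ : Countable Ω) (_ : Infinite Ω) (H : Subgroup (Equiv.Perm Ω)),
    (∀ (n : ℕ) (a b : Fin n → Ω), Function.Injective a → Function.Injective b →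
      ∃ g ∈ H, ∀ i, g (a i) = b i) ∧
    Cardinal.mk (Quotient (setSetoid H)) = ℵ₁ ∧
    (∀ K : Subgroup (Equiv.Perm Ω), K ≤ H → Cardinal.mk (H ⧸ K.subgroupOf H) ≤ ℵ₁ →
      Cardinal.mk (Quotient (setSetoid K)) = ℵ₁ ∧
      ∀ (κ : Type) [Finite κ] [Nontrivial κ],
        Cardinal.mk (Quotient (colSetoid (κ := κ) K)) = ℵ₁) ∧
    (Cardinal.continuum.{0} ≠ ℵ₁ → ℵ₀ < ℵ₁ ∧ ℵ₁ < Cardinal.continuum.{0}) := by
  have key : ∀ K : Subgroup (Equiv.Perm _),
      K ≤ Pool.Agent.Results.MP_7a24ab_lc.Aleph1Orbits.H →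
      Cardinal.mk (Pool.Agent.Results.MP_7a24ab_lc.Aleph1Orbits.H ⧸
        K.subgroupOf Pool.Agent.Results.MP_7a24ab_lc.Aleph1Orbits.H) ≤ ℵ₁ →
      ∀ (κ : Type) [Finite κ] [Nontrivial κ],
        Cardinal.mk (Quotient (colSetoid (κ := κ) K)) = ℵ₁ := by
    intro K hK hidx κ _ _
    refine le_antisymm ?_ (le_mk_col.trans (mk_le_sub hK))
    exact mk_sub_le.trans
      (Cardinal.mul_le_of_le (Cardinal.aleph0_le_aleph 1) hidx mk_col_le)
  have hidxH : Cardinal.mk (Pool.Agent.Results.MP_7a24ab_lc.Aleph1Orbits.H ⧸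
      (Pool.Agent.Results.MP_7a24ab_lc.Aleph1Orbits.H).subgroupOf
        Pool.Agent.Results.MP_7a24ab_lc.Aleph1Orbits.H) ≤ ℵ₁ := by
    rw [Subgroup.subgroupOf_self]
    have : Subsingleton (Pool.Agent.Results.MP_7a24ab_lc.Aleph1Orbits.H ⧸
      (⊤ : Subgroup Pool.Agent.Results.MP_7a24ab_lc.Aleph1Orbits.H)) :=
      QuotientGroup.subsingleton_quotient_top
    exact (Cardinal.le_one_iff_subsingleton.mpr this).trans
      (Cardinal.one_lt_aleph0.le.trans (Cardinal.aleph0_le_aleph 1))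
  refine ⟨Pool.Agent.Results.MP_7a24ab_lc.Aleph1Orbits.Node, inferInstance, inferInstance,
    Pool.Agent.Results.MP_7a24ab_lc.Aleph1Orbits.H, highly_transitive, ?_, ?_, ?_⟩
  · rw [mk_orbit_eq]
    exact key _ le_rfl hidxH Prop
  · intro K hK hidx
    refine ⟨?_, fun κ _ _ => key K hK hidx κ⟩
    rw [mk_orbit_eq]
    exact key K hK hidx Prop
  · intro hc
    exact ⟨Cardinal.aleph0_lt_aleph_one, lt_of_le_of_ne Cardinal.aleph_one_le_continuum hc.symm⟩

end Pool.Agent.Results.MP_7a24ab_lc.HighlyTransitiveAleph1
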